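import Mathlib
import Pool.Agent.W306.SP.Defs

/-! SP-LOW: adding a random point. -/

set_option autoImplicit false

namespace Pool.Agent.W578.SP

open MeasureTheory Set
open Pool.Agent.W306.SP
open scoped ENNReal

variable {d : ℕ}

/-- the unit cube -/
def Q (d : ℕ) : Set (Fin d → ℝ) := {y | ∀ k, 0 ≤ y k ∧ y k < 1}

lemma Q_eq : Q d = Set.pi univ fun _ => Ico (0 : ℝ) 1 := by
  ext y
  simp [Q, Set.mem_pi]

lemma Q_meas : MeasurableSet (Q d) := by
  rw [Q_eq]
  exact MeasurableSet.univ_pi fun _ => measurableSet_Ico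

lemma Q_vol : volume (Q d) = 1 := by
  rw [Q_eq, volume_pi_pi]
  simp

lemma abs_round_symm (a : ℝ) : |a - round a| = |-a - round (-a)| := by
  apply le_antisymm
  · have h := round_le a (-(round (-a)))
    have e : |a - ((-(round (-a)) : ℤ) : ℝ)| = |-a - round (-a)| := by
      rw [← abs_neg]
      congr 1
      push_cast
      ring
    rwa [e] at h
  · have h := round_le (-a) (-(round a))
    have e : |-a - ((-(round a) : ℤ) : ℝ)| = |a - round a| := by
      rw [← abs_neg]
      congr 1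
      push_cast
      ring
    rwa [e] at h

lemma tsq_symm (x y : Fin d → ℝ) : tsq x y = tsq y x := by
  unfold tsq
  refine Finset.sum_congr rfl fun k _ => ?_
  rw [abs_round_symm (x k - y k), neg_sub]

lemma round_meas {α : Type*} [MeasurableSpace α] {f : α → ℝ} (hf : Measurable f) :
    Measurable fun a => ((round (f a) : ℤ) : ℝ) := by
  have h1 : Measurable fun a => ⌊f a + 1 / 2⌋ := (hf.add_const _).floor
  have h2 : Measurable fun a => ((⌊f a + 1 / 2⌋ : ℤ) : ℝ) :=
    (Measurable.of_discrete (f := fun z : ℤ => (z : ℝ))).comp h1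
  have e : (fun a => ((round (f a) : ℤ) : ℝ)) = fun a => ((⌊f a + 1 / 2⌋ : ℤ) : ℝ) := by
    funext a
    rw [round_eq]
  rw [e]
  exact h2

lemma tsq_meas {α : Type*} [MeasurableSpace α] {f g : α → Fin d → ℝ} (hf : Measurable f)
    (hg : Measurable g) : Measurable fun a => tsq (f a) (g a) := by
  unfold tsq
  refine Finset.measurable_sum _ fun k _ => ?_
  have hfk : Measurable fun a => f a k := (measurable_pi_apply k).comp hf
  have hgk : Measurable fun a => g a k := (measurable_pi_apply k).comp hg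
  have h1 : Measurable fun a => f a k - g a k := hfk.sub hgk
  have h2 : Measurable fun a => |f a k - g a k - round (f a k - g a k)| := by
    have := h1.sub (round_meas h1)
    exact this.abs
  exact h2.pow_const 2

/-- shifted cells -/
def Cn (n : Fin d → ℤ) : Set (Fin d → ℝ) := {z | ∀ k, -(n k : ℝ) ≤ z k ∧ z k < -(n k : ℝ) + 1}

lemma Cn_meas (n : Fin d → ℤ) : MeasurableSet (Cn n) := by
  have : Cn n = Set.pi univ fun k => Ico (-(n k : ℝ)) (-(n k : ℝ) + 1) := by
    ext z
    simp [Cn, Set.mem_pi]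
  rw [this]
  exact MeasurableSet.univ_pi fun _ => measurableSet_Ico

/-- a ball -/
def T0 (x : Fin d → ℝ) (r : ℝ) : Set (Fin d → ℝ) := {z | ∑ k, (z k - x k) ^ 2 < r ^ 2}

lemma T0_meas (x : Fin d → ℝ) (r : ℝ) : MeasurableSet (T0 x r) :=
  measurableSet_lt (by fun_prop) measurable_const

lemma T0_vol (x : Fin d → ℝ) {r : ℝ} (hr : 0 < r) : volume (T0 x r) = ENNReal.ofReal (vol d r) := by
  have h1 : T0 x r = (fun z => z + (-x)) ⁻¹' (T0 0 r) := by
    ext z
    simp only [T0, mem_preimage, mem_setOf_eq, Pi.add_apply, Pi.neg_apply, Pi.zero_apply, sub_zero,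
      sub_eq_add_neg, neg_zero, add_zero]
  rw [h1, measure_preimage_add_right]
  have h2 : T0 0 r = (WithLp.toLp 2) ⁻¹' (Metric.ball (0 : EuclideanSpace ℝ (Fin d)) r) := by
    rw [EuclideanSpace.ball_zero_eq r hr.le]
    ext z
    simp [T0]
  rw [h2, (PiLp.volume_preserving_toLp (Fin d)).measure_preimage
    measurableSet_ball.nullMeasurableSet]
  unfold vol
  rw [ENNReal.ofReal_toReal measure_ball_lt_top.ne]

lemma N_vol (x : Fin d → ℝ) {r : ℝ} (hr : 0 < r) :
    volume {y : Fin d → ℝ | y ∈ Q d ∧ tsq y x < r ^ 2} ≤ ENNReal.ofReal (vol d r) := by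
  have hsub : {y : Fin d → ℝ | y ∈ Q d ∧ tsq y x < r ^ 2} ⊆ ⋃ n : Fin d → ℤ,
      (fun y : Fin d → ℝ => y + (fun k => -(n k : ℝ))) ⁻¹' (Cn n ∩ T0 x r) := by
    rintro y ⟨hy, ht⟩
    rw [mem_iUnion]
    refine ⟨fun k => round (y k - x k), ?_, ?_⟩
    · intro k
      have := hy k
      simp only [Pi.add_apply]
      constructor <;> linarith
    · have e : ∑ k, ((y k + -((round (y k - x k) : ℤ) : ℝ)) - x k) ^ 2 = tsq y x := by
        unfold tsq
        refine Finset.sum_congr rfl fun k _ => ?_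
        rw [sq_abs]
        congr 1
        ring
      simp only [T0, mem_setOf_eq, Pi.add_apply]
      rw [e]
      exact ht
  have hdisj : Pairwise (Function.onFun Disjoint fun n : Fin d → ℤ => Cn n ∩ T0 x r) := by
    intro n m hnm
    rw [Function.onFun, Set.disjoint_left]
    rintro z ⟨hz, _⟩ ⟨hz', _⟩
    apply hnm
    funext k
    have h1 := hz k
    have h2 := hz' k
    have h3 : (m k : ℝ) < n k + 1 := by linarith
    have h4 : (n k : ℝ) < m k + 1 := by linarith
    have h5 : m k < n k + 1 := by exact_mod_cast h3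
    have h6 : n k < m k + 1 := by exact_mod_cast h4
    omega
  calc volume {y : Fin d → ℝ | y ∈ Q d ∧ tsq y x < r ^ 2}
      ≤ volume (⋃ n : Fin d → ℤ,
        (fun y : Fin d → ℝ => y + (fun k => -(n k : ℝ))) ⁻¹' (Cn n ∩ T0 x r)) := measure_mono hsub
    _ ≤ ∑' n : Fin d → ℤ, volume
        ((fun y : Fin d → ℝ => y + (fun k => -(n k : ℝ))) ⁻¹' (Cn n ∩ T0 x r)) :=
        measure_iUnion_le _
    _ = ∑' n : Fin d → ℤ, volume (Cn n ∩ T0 x r) := by
        refine tsum_congr fun n => ?_
        rw [measure_preimage_add_right]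
    _ = volume (⋃ n : Fin d → ℤ, Cn n ∩ T0 x r) :=
        (measure_iUnion hdisj fun n => (Cn_meas n).inter (T0_meas x r)).symm
    _ ≤ volume (T0 x r) := measure_mono (iUnion_subset fun n => inter_subset_right)
    _ = _ := T0_vol x hr

/-- the admissible positions of a further point -/
def Gd {M : ℕ} (r : ℝ) (x : Fin M → Fin d → ℝ) : Set (Fin d → ℝ) :=
  {y | y ∈ Q d ∧ ∀ i, r ^ 2 ≤ tsq y (x i)}

lemma Gd_vol {M : ℕ} {r : ℝ} (hr : 0 < r) (x : Fin M → Fin d → ℝ) :
    1 ≤ volume (Gd r x) + M * ENNReal.ofReal (vol d r) := by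
  have hsub : Q d ⊆ Gd r x ∪ ⋃ i : Fin M, {y : Fin d → ℝ | y ∈ Q d ∧ tsq y (x i) < r ^ 2} := by
    intro y hy
    by_cases h : ∀ i, r ^ 2 ≤ tsq y (x i)
    · exact Or.inl ⟨hy, h⟩
    · push Not at h
      obtain ⟨i, hi⟩ := h
      exact Or.inr (mem_iUnion.2 ⟨i, hy, hi⟩)
  calc (1 : ℝ≥0∞) = volume (Q d) := Q_vol.symm
    _ ≤ volume (Gd r x ∪ ⋃ i : Fin M, {y : Fin d → ℝ | y ∈ Q d ∧ tsq y (x i) < r ^ 2}) :=
        measure_mono hsub
    _ ≤ volume (Gd r x) +
        volume (⋃ i : Fin M, {y : Fin d → ℝ | y ∈ Q d ∧ tsq y (x i) < r ^ 2}) :=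
        measure_union_le _ _
    _ ≤ volume (Gd r x) +
        ∑' i : Fin M, volume {y : Fin d → ℝ | y ∈ Q d ∧ tsq y (x i) < r ^ 2} := by
        gcongr
        exact measure_iUnion_le _
    _ ≤ volume (Gd r x) + ∑' _i : Fin M, ENNReal.ofReal (vol d r) := by
        gcongr with i
        exact N_vol (x i) hr
    _ = _ := by
        rw [tsum_fintype]
        simp

lemma Sep_meas (d M : ℕ) (r : ℝ) : MeasurableSet (Sep d M r) := by
  have e : Sep d M r = (⋂ i, ⋂ k, {x : Fin M → Fin d → ℝ | 0 ≤ x i k ∧ x i k < 1}) ∩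
      ⋂ i, ⋂ j, {x : Fin M → Fin d → ℝ | i ≠ j → r ^ 2 ≤ tsq (x i) (x j)} := by
    ext x
    simp [Pool.Agent.W306.SP.Sep]
  rw [e]
  refine MeasurableSet.inter (MeasurableSet.iInter fun i => MeasurableSet.iInter fun k => ?_)
    (MeasurableSet.iInter fun i => MeasurableSet.iInter fun j => ?_)
  · have h1 : Measurable fun x : Fin M → Fin d → ℝ => x i k :=
      (measurable_pi_apply k).comp (measurable_pi_apply i)
    exact (measurableSet_le measurable_const h1).inter (measurableSet_lt h1 measurable_const)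
  · by_cases hij : i = j
    · simp [hij]
    · have e2 : {x : Fin M → Fin d → ℝ | i ≠ j → r ^ 2 ≤ tsq (x i) (x j)} =
          {x : Fin M → Fin d → ℝ | r ^ 2 ≤ tsq (x i) (x j)} := by
        ext x
        simp [hij]
      rw [e2]
      exact measurableSet_le measurable_const
        (tsq_meas (measurable_pi_apply i) (measurable_pi_apply j))

lemma Sep_vol (d M : ℕ) (r : ℝ) : volume (Sep d M r) ≤ 1 := by
  have hsub : Sep d M r ⊆ Set.pi univ fun _ : Fin M => Q d := by
    intro x hx i _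
    exact hx.1 i
  calc volume (Sep d M r) ≤ volume (Set.pi univ fun _ : Fin M => Q d) := measure_mono hsub
    _ = 1 := by
      rw [volume_pi_pi]
      simp [Q_vol]

/-- the configurations of `M + 1` points as pairs -/
def S' (d M : ℕ) (r : ℝ) : Set ((Fin d → ℝ) × (Fin M → Fin d → ℝ)) :=
  {q | q.1 ∈ Q d ∧ q.2 ∈ Sep d M r ∧ ∀ i, r ^ 2 ≤ tsq q.1 (q.2 i)}

lemma S'_meas (d M : ℕ) (r : ℝ) : MeasurableSet (S' d M r) := by
  have e : S' d M r = (Prod.fst ⁻¹' Q d ∩ Prod.snd ⁻¹' Sep d M r) ∩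
      ⋂ i, {q : (Fin d → ℝ) × (Fin M → Fin d → ℝ) | r ^ 2 ≤ tsq q.1 (q.2 i)} := by
    ext q
    simp [S', and_assoc]
  rw [e]
  refine MeasurableSet.inter (MeasurableSet.inter (measurable_fst Q_meas)
    (measurable_snd (Sep_meas d M r))) (MeasurableSet.iInter fun i => ?_)
  exact measurableSet_le measurable_const
    (tsq_meas measurable_fst ((measurable_pi_apply i).comp measurable_snd))

lemma Sep_succ (d M : ℕ) (r : ℝ) : Sep d (M + 1) r =
    (MeasurableEquiv.piFinSuccAbove (fun _ : Fin (M + 1) => Fin d → ℝ) 0) ⁻¹' S' d M r := by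
  ext x
  have e1 : (MeasurableEquiv.piFinSuccAbove (fun _ : Fin (M + 1) => Fin d → ℝ) 0) x =
      (x 0, fun j => x (Fin.succAbove 0 j)) := rfl
  rw [mem_preimage, e1]
  simp only [Fin.zero_succAbove]
  constructor
  · rintro ⟨h1, h2⟩
    refine ⟨fun k => h1 0 k, ⟨fun i k => h1 i.succ k, fun i j hij => h2 _ _ fun h =>
      hij (Fin.succ_injective _ h)⟩, fun i => h2 _ _ (Fin.succ_ne_zero i).symm⟩
  · rintro ⟨h1, ⟨h2, h3⟩, h4⟩
    refine ⟨?_, ?_⟩
    · intro i
      refine Fin.cases ?_ (fun j => ?_) i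
      · exact h1
      · exact h2 j
    · intro i
      refine Fin.cases ?_ (fun i' => ?_) i
      · intro j
        refine Fin.cases ?_ (fun j' => ?_) j
        · intro h
          exact absurd rfl h
        · intro _
          exact h4 j'
      · intro j
        refine Fin.cases ?_ (fun j' => ?_) j
        · intro _
          rw [tsq_symm]
          exact h4 i'
        · intro h
          exact h3 i' j' fun h' => h (by rw [h'])

theorem low : S_LOW := by
  intro d M r _ hr _
  rcases lt_or_ge (1 - M * vol d r) 0 with hneg | hpos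
  · have h1 : 0 ≤ P d M r := ENNReal.toReal_nonneg
    have h2 : 0 ≤ P d (M + 1) r := ENNReal.toReal_nonneg
    nlinarith
  · have hv : 0 ≤ vol d r := ENNReal.toReal_nonneg
    have hc : ∀ x : Fin M → Fin d → ℝ, ENNReal.ofReal (1 - M * vol d r) ≤ volume (Gd r x) := by
      intro x
      rw [ENNReal.ofReal_sub _ (by positivity), ENNReal.ofReal_one,
        ENNReal.ofReal_mul (by positivity), ENNReal.ofReal_natCast]
      exact tsub_le_iff_right.2 (Gd_vol hr x)
    have h1 : volume (Sep d (M + 1) r) = volume (S' d M r) := by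
      rw [Sep_succ]
      exact (volume_preserving_piFinSuccAbove (fun _ : Fin (M + 1) => Fin d → ℝ) 0).measure_preimage
        (S'_meas d M r).nullMeasurableSet
    have h2 : volume (S' d M r) =
        ∫⁻ x : Fin M → Fin d → ℝ, volume ((fun y : Fin d → ℝ => (y, x)) ⁻¹' S' d M r) := by
      rw [Measure.volume_eq_prod, Measure.prod_apply_symm (S'_meas d M r)]
    have h3 : ENNReal.ofReal (1 - M * vol d r) * volume (Sep d M r) ≤ volume (S' d M r) := by
      rw [h2, ← lintegral_indicator_const (Sep_meas d M r)]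
      refine lintegral_mono fun x => ?_
      by_cases hx : x ∈ Sep d M r
      · rw [indicator_of_mem hx]
        refine (hc x).trans (measure_mono ?_)
        rintro y ⟨hy1, hy2⟩
        exact ⟨hy1, hx, hy2⟩
      · rw [indicator_of_notMem hx]
        exact zero_le
    have h4 : volume (Sep d (M + 1) r) ≠ ∞ :=
      ((Sep_vol d (M + 1) r).trans_lt ENNReal.one_lt_top).ne
    rw [← h1] at h3
    have h5 := ENNReal.toReal_mono h4 h3
    rw [ENNReal.toReal_mul, ENNReal.toReal_ofReal hpos, mul_comm] at h5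
    exact h5

end Pool.Agent.W578.SP
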